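import Mathlib

/-!
A minimal subshift of `ℤ → Bool` built from a hierarchy of blocks, in which the coordinates in a
thin set `R` can be prescribed freely.
-/

namespace Pool.Agent.P.MP_c19a8f_an

open Set Filter Topology

/-- Block lengths. -/
def len (L : ℕ → ℕ) : ℕ → ℕ
  | 0 => 1
  | j + 1 => L (len L j) * len L j

/-- `V L j s x`: the word of `x` on `[s, s + len L j)` is a valid block of level `j`. -/
def V (L : ℕ → ℕ) : ℕ → ℤ → (ℤ → Bool) → Prop
  | 0, _, _ => True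
  | j + 1, s, x => (∀ i : ℕ, i < L (len L j) → V L j (s + i * len L j) x) ∧
      ∀ y, V L j 0 y → ∃ i : ℕ, i < L (len L j) ∧
        ∀ t : ℤ, 0 ≤ t → t < len L j → x (s + i * len L j + t) = y t

lemma slot_lt {a l : ℕ} {i : ℕ} {t : ℤ} (hi : i < a) (ht : t < l) :
    (i : ℤ) * l + t < ((a * l : ℕ) : ℤ) := by
  have h1 : (i : ℤ) + 1 ≤ a := by exact_mod_cast hi
  have h2 : (0 : ℤ) ≤ l := Int.natCast_nonneg _
  push_cast
  nlinarith

lemma V_loc (L : ℕ → ℕ) : ∀ (j : ℕ) (s s' : ℤ) (x x' : ℤ → Bool),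
    (∀ t : ℤ, 0 ≤ t → t < len L j → x (s + t) = x' (s' + t)) → V L j s x → V L j s' x' := by
  intro j
  induction j with
  | zero => intro s s' x x' _ _; trivial
  | succ j ih =>
    intro s s' x x' h hV
    have key : ∀ i : ℕ, i < L (len L j) → ∀ t : ℤ, 0 ≤ t → t < len L j →
        x (s + i * len L j + t) = x' (s' + i * len L j + t) := by
      intro i hi t h0 ht
      have := h (i * len L j + t) (by positivity) (slot_lt hi ht)
      simpa [add_assoc] using this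
    refine ⟨fun i hi => ih _ _ x x' (key i hi) (hV.1 i hi), fun y hy => ?_⟩
    obtain ⟨i, hi, hx⟩ := hV.2 y hy
    exact ⟨i, hi, fun t h0 ht => (key i hi t h0 ht).symm.trans (hx t h0 ht)⟩

lemma V_loc' (L : ℕ → ℕ) {j : ℕ} {s : ℤ} {x x' : ℤ → Bool}
    (h : ∀ r : ℤ, s ≤ r → r < s + len L j → x r = x' r) (hV : V L j s x) : V L j s x' :=
  V_loc L j s s x x' (fun t h0 ht => h _ (by omega) (by omega)) hV

/-- `x` is a concatenation of valid blocks of level `j`, one of them starting at `o`. -/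
def C (L : ℕ → ℕ) (j : ℕ) (o : ℤ) (x : ℤ → Bool) : Prop :=
  ∀ m : ℤ, V L j (o + m * len L j) x

/-- The hypothesis tying the multiplicities `L` to the thin set `R`. -/
def Room (R : Set ℤ) (L : ℕ → ℕ) : Prop :=
  ∀ l : ℕ, 0 < l → ∀ s t : ℤ, ∃ i0 : ℕ, 2 ≤ i0 ∧ i0 + 2 ^ l ≤ L l ∧
    ∀ r : ℤ, (r ∈ R ∨ r = t) → ¬ (s + i0 * l ≤ r ∧ r < s + (i0 + 2 ^ l) * l)

lemma Room.two_le {R : Set ℤ} {L : ℕ → ℕ} (H : Room R L) {l : ℕ} (hl : 0 < l) : 2 ≤ L l := by
  obtain ⟨i0, h2, h, -⟩ := H l hl 0 0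
  exact h2.trans ((Nat.le_add_right _ _).trans h)

lemma Room.len_pos {R : Set ℤ} {L : ℕ → ℕ} (H : Room R L) (j : ℕ) : 0 < len L j := by
  induction j with
  | zero => exact Nat.one_pos
  | succ j ih =>
    have := H.two_le ih
    exact Nat.mul_pos (by omega) ih

lemma Room.len_succ {R : Set ℤ} {L : ℕ → ℕ} (H : Room R L) (j : ℕ) :
    2 * len L j ≤ len L (j + 1) :=
  Nat.mul_le_mul_right _ (H.two_le (H.len_pos j))

lemma Room.lt_len {R : Set ℤ} {L : ℕ → ℕ} (H : Room R L) (j : ℕ) : j < len L j := by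
  induction j with
  | zero => exact Nat.one_pos
  | succ j ih =>
    have := H.len_succ j
    omega

lemma exists_slot {l : ℕ} (hl : 0 < l) (o r : ℤ) :
    ∃ m : ℤ, o + m * l ≤ r ∧ r < o + m * l + l := by
  have hl' : (0 : ℤ) < l := by exact_mod_cast hl
  refine ⟨(r - o) / l, ?_, ?_⟩
  · have := Int.ediv_mul_le (r - o) hl'.ne'
    omega
  · have := Int.lt_ediv_add_one_mul_self (r - o) hl'
    rw [add_mul] at this
    omega

lemma glue {l : ℕ} (hl : 0 < l) (o : ℤ) (y : ℤ → ℤ → Bool) :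
    ∃ x : ℤ → Bool, ∀ m r : ℤ, o + m * l ≤ r → r < o + m * l + l → x r = y m r := by
  have hl' : (0 : ℤ) < l := by exact_mod_cast hl
  refine ⟨fun r => y ((r - o) / l) r, fun m r h1 h2 => ?_⟩
  have : (r - o) / l = m := by
    have := (Int.ediv_emod_unique (a := r - o) (r := r - o - m * l) (q := m) hl').2
      ⟨by ring, by omega, by omega⟩
    exact this.1
  simp only [this]

lemma exists_code (l : ℕ) (y : ℤ → Bool) :
    ∃ k : ℕ, k < 2 ^ l ∧ ∀ t : ℤ, 0 ≤ t → t < l → k.testBit t.toNat = y t := by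
  refine ⟨Nat.ofBits (fun i : Fin l => y (i : ℕ)), Nat.ofBits_lt_two_pow _, fun t h0 ht => ?_⟩
  have hlt : t.toNat < l := by omega
  rw [Nat.testBit_ofBits_lt _ _ hlt]
  simp [Int.toNat_of_nonneg h0]

lemma step_local {R : Set ℤ} {L : ℕ → ℕ} (H : Room R L) (j : ℕ) (s t : ℤ) (x : ℤ → Bool)
    (hx : ∀ i : ℕ, i < L (len L j) → V L j (s + i * len L j) x) :
    ∃ z : ℤ → Bool, V L (j + 1) s z ∧ (∀ r, r < s + 2 * len L j → z r = x r) ∧
      ∀ r, (r ∈ R ∨ r = t) → z r = x r := by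
  classical
  have hl := H.len_pos j
  set l := len L j with hl_def
  have hl' : (0 : ℤ) < l := by exact_mod_cast hl
  obtain ⟨i0, h2, hL, hfree⟩ := H l hl s t
  let Y : ℕ → ℤ → Bool := fun k u => k.testBit u.toNat
  let y : ℤ → ℤ → Bool := fun n =>
    if (i0 : ℤ) ≤ n ∧ n < i0 + 2 ^ l ∧ V L j 0 (Y (n - i0).toNat) then
      fun r => Y (n - i0).toNat (r - (s + n * l)) else x
  obtain ⟨z, hz⟩ := glue hl s y
  have hout : ∀ r, ¬ (s + i0 * l ≤ r ∧ r < s + (i0 + 2 ^ l) * l) → z r = x r := by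
    intro r hr
    obtain ⟨m, hm1, hm2⟩ := exists_slot hl s r
    rw [hz m r hm1 hm2]
    have : ¬ ((i0 : ℤ) ≤ m ∧ m < i0 + 2 ^ l ∧ V L j 0 (Y (m - i0).toNat)) := by
      rintro ⟨a, b, -⟩
      apply hr
      have b' : m + 1 ≤ i0 + 2 ^ l := b
      constructor <;> nlinarith
    simp only [y, if_neg this]
  have hV : (∀ i : ℕ, i < L l → V L j (s + i * l) z) ∧
      ∀ y, V L j 0 y → ∃ i : ℕ, i < L l ∧ ∀ t : ℤ, 0 ≤ t → t < l → z (s + i * l + t) = y t := ?_
  · refine ⟨z, hV, fun r hr => hout r ?_, fun r hr => hout r (hfree r hr)⟩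
    rintro ⟨a, -⟩
    have : (2 : ℤ) ≤ i0 := by exact_mod_cast h2
    nlinarith
  refine ⟨fun i hi => ?_, fun w hw => ?_⟩
  · by_cases hc : (i0 : ℤ) ≤ i ∧ (i : ℤ) < i0 + 2 ^ l ∧ V L j 0 (Y ((i : ℤ) - i0).toNat)
    · refine V_loc L j 0 _ _ z (fun u h0 hu => ?_) hc.2.2
      rw [hz i _ (by omega) (by omega)]
      simp only [y, if_pos hc]
      congr 1
      ring
    · refine V_loc' L (fun r h1 h2 => ?_) (hx i hi)
      rw [hz i r h1 h2]
      simp only [y, if_neg hc]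
  · obtain ⟨k, hk, hkw⟩ := exists_code l w
    have hkV : V L j 0 (Y k) := V_loc L j 0 0 w _ (fun u h0 hu => by
      simp only [zero_add]; exact (hkw u h0 hu).symm) hw
    refine ⟨i0 + k, by omega, fun u h0 hu => ?_⟩
    have hk' : (k : ℤ) < 2 ^ l := by exact_mod_cast hk
    have e1 : (((i0 + k : ℕ) : ℤ) - i0).toNat = k := by omega
    have hc : (i0 : ℤ) ≤ ((i0 + k : ℕ) : ℤ) ∧ ((i0 + k : ℕ) : ℤ) < i0 + 2 ^ l ∧
        V L j 0 (Y (((i0 + k : ℕ) : ℤ) - i0).toNat) := by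
      refine ⟨by omega, by omega, ?_⟩
      rw [e1]; exact hkV
    rw [hz ((i0 + k : ℕ) : ℤ) _ (by omega) (by omega)]
    simp only [y, if_pos hc, e1]
    rw [← hkw u h0 hu]
    simp only [Y]
    congr 2
    ring

lemma step {R : Set ℤ} {L : ℕ → ℕ} (H : Room R L) (j : ℕ) (o t : ℤ) (x : ℤ → Bool)
    (hx : C L j o x) :
    ∃ z : ℤ → Bool, C L (j + 1) o z ∧ (∀ r, o ≤ r → r < o + 2 * len L j → z r = x r) ∧
      ∀ r, (r ∈ R ∨ r = t) → z r = x r := by
  have h1 : ∀ m : ℤ, ∃ z : ℤ → Bool, V L (j + 1) (o + m * len L (j + 1)) z ∧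
      (∀ r, r < o + m * len L (j + 1) + 2 * len L j → z r = x r) ∧
      ∀ r, (r ∈ R ∨ r = t) → z r = x r := by
    intro m
    refine step_local H j _ t x (fun i _ => ?_)
    have := hx (m * L (len L j) + i)
    convert this using 1
    simp only [len]
    push_cast
    ring
  choose y hy1 hy2 hy3 using h1
  obtain ⟨z, hz⟩ := glue (H.len_pos (j + 1)) o y
  refine ⟨z, fun m => V_loc' L (fun r a b => (hz m r a b).symm) (hy1 m), fun r a b => ?_,
    fun r hr => ?_⟩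
  · have := H.len_succ j
    rw [hz 0 r (by omega) (by omega)]
    exact hy2 0 r (by omega)
  · obtain ⟨m, hm1, hm2⟩ := exists_slot (H.len_pos (j + 1)) o r
    rw [hz m r hm1 hm2]
    exact hy3 m r hr

lemma climb {R : Set ℤ} {L : ℕ → ℕ} (H : Room R L) (j : ℕ) (o t : ℤ) (x : ℤ → Bool)
    (hx : C L j o x) (k : ℕ) :
    ∃ z : ℤ → Bool, C L (j + k) o z ∧ (∀ r, o ≤ r → r < o + 2 * len L j → z r = x r) ∧
      (∀ r, (r ∈ R ∨ r = t) → z r = x r) ∧ len L j ≤ len L (j + k) := by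
  induction k with
  | zero => exact ⟨x, hx, fun _ _ _ => rfl, fun _ _ => rfl, le_rfl⟩
  | succ k ih =>
    obtain ⟨z, hz1, hz2, hz3, hz4⟩ := ih
    obtain ⟨w, hw1, hw2, hw3⟩ := step H (j + k) o t z hz1
    have := H.len_succ (j + k)
    refine ⟨w, hw1, fun r a b => (hw2 r a (by omega)).trans (hz2 r a b),
      fun r hr => (hw3 r hr).trans (hz3 r hr), ?_⟩
    show len L j ≤ len L (j + k + 1)
    omega

lemma C_down {R : Set ℤ} {L : ℕ → ℕ} (H : Room R L) {j : ℕ} {o : ℤ} {x : ℤ → Bool}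
    (hx : C L (j + 1) o x) : C L j o x := by
  intro m
  have hL : 0 < L (len L j) := lt_of_lt_of_le two_pos (H.two_le (H.len_pos j))
  obtain ⟨a, h1, h2⟩ := exists_slot hL 0 m
  have := (hx a).1 (m - a * L (len L j)).toNat (by omega)
  convert this using 1
  rw [Int.toNat_of_nonneg (by omega)]
  simp only [len]
  push_cast
  ring

lemma C_shift {L : ℕ → ℕ} {j : ℕ} {o : ℤ} {x : ℤ → Bool} (hx : C L j o x) (a : ℤ) :
    C L j (o + a * len L j) x := by
  intro m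
  convert hx (a + m) using 1
  ring

/-- The set of concatenations of valid blocks of level `j`. -/
def D (L : ℕ → ℕ) (j : ℕ) : Set (ℤ → Bool) := {x | ∃ o, C L j o x}

/-- The subshift. -/
def XX (L : ℕ → ℕ) : Set (ℤ → Bool) := ⋂ j, D L j

lemma isOpen_agree (F : Finset ℤ) (x : ℤ → Bool) :
    IsOpen {y : ℤ → Bool | ∀ r ∈ F, y r = x r} := by
  have : {y : ℤ → Bool | ∀ r ∈ F, y r = x r} = ⋂ r ∈ F, (fun y : ℤ → Bool => y r) ⁻¹' {x r} := by
    ext y; simp
  rw [this]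
  exact isOpen_biInter_finset fun r _ => (isOpen_discrete _).preimage (continuous_apply r)

lemma isClosed_V (L : ℕ → ℕ) (j : ℕ) (s : ℤ) : IsClosed {x | V L j s x} := by
  rw [← isOpen_compl_iff, isOpen_iff_mem_nhds]
  intro x hx
  refine mem_of_superset ((isOpen_agree (Finset.Ico s (s + len L j)) x).mem_nhds
    (fun _ _ => rfl)) (fun y hy hV => hx ?_)
  exact V_loc' L (fun r a b => hy r (Finset.mem_Ico.2 ⟨a, b⟩)) hV

lemma isClosed_D {R : Set ℤ} {L : ℕ → ℕ} (H : Room R L) (j : ℕ) : IsClosed (D L j) := by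
  have : D L j = ⋃ o ∈ Finset.Ico (0 : ℤ) (len L j), ⋂ m : ℤ, {x | V L j (o + m * len L j) x} := by
    ext x
    simp only [D, mem_ofPred_eq, mem_iUnion, mem_iInter, Finset.mem_Ico, exists_prop]
    constructor
    · rintro ⟨o, ho⟩
      obtain ⟨a, h1, h2⟩ := exists_slot (H.len_pos j) 0 o
      refine ⟨o + (-a) * len L j, ⟨by linarith, by linarith⟩, C_shift ho (-a)⟩
    · rintro ⟨o, -, ho⟩
      exact ⟨o, ho⟩
  rw [this]
  exact isClosed_biUnion_finset fun o _ => isClosed_iInter fun m => isClosed_V L j _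

lemma isClosed_XX {R : Set ℤ} {L : ℕ → ℕ} (H : Room R L) : IsClosed (XX L) :=
  isClosed_iInter fun j => isClosed_D H j

lemma D_anti {R : Set ℤ} {L : ℕ → ℕ} (H : Room R L) (j k : ℕ) : D L (j + k) ⊆ D L j := by
  induction k with
  | zero => exact subset_rfl
  | succ k ih =>
    rintro x ⟨o, ho⟩
    exact ih ⟨o, C_down H ho⟩

/-- Any concatenation of level `j` blocks can be corrected, off a double block and off `R`,
to a point of the subshift. -/
lemma reach {R : Set ℤ} {L : ℕ → ℕ} (H : Room R L) (j : ℕ) (o t : ℤ) (x : ℤ → Bool)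
    (hx : C L j o x) :
    ∃ z ∈ XX L, (∀ r, o ≤ r → r < o + 2 * len L j → z r = x r) ∧
      ∀ r, (r ∈ R ∨ r = t) → z r = x r := by
  let A : Set (ℤ → Bool) := {z | ∀ r, ((o ≤ r ∧ r < o + 2 * len L j) ∨ (r ∈ R ∨ r = t)) → z r = x r}
  have hA : IsClosed A := by
    have : A = ⋂ r : ℤ, ⋂ _ : ((o ≤ r ∧ r < o + 2 * len L j) ∨ (r ∈ R ∨ r = t)),
        (fun y : ℤ → Bool => y r) ⁻¹' {x r} := by
      ext y; simp [A]
    rw [this]
    exact isClosed_iInter fun r => isClosed_iInter fun _ =>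
      (isClosed_discrete _).preimage (continuous_apply r)
  have hcl : ∀ k, IsClosed (D L (j + k) ∩ A) := fun k => (isClosed_D H _).inter hA
  obtain ⟨z, hz⟩ := IsCompact.nonempty_iInter_of_sequence_nonempty_isCompact_isClosed
    (fun k => D L (j + k) ∩ A)
    (fun k => inter_subset_inter_left _ (D_anti H (j + k) 1))
    (fun k => by
      obtain ⟨z, h1, h2, h3, -⟩ := climb H j o t x hx k
      exact ⟨z, ⟨o, h1⟩, fun r hr => hr.elim (fun a => h2 r a.1 a.2) (h3 r)⟩)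
    (hcl 0).isCompact hcl
  rw [mem_iInter] at hz
  refine ⟨z, mem_iInter.2 fun k => ?_, fun r a b => (hz 0).2 r (Or.inl ⟨a, b⟩),
    fun r hr => (hz 0).2 r (Or.inr hr)⟩
  have := (hz k).1
  rw [add_comm] at this
  exact D_anti H k j this

/-- Every pattern on `R` occurs in the subshift. -/
lemma exists_pattern {R : Set ℤ} {L : ℕ → ℕ} (H : Room R L) (ξ : ℤ → Bool) :
    ∃ z ∈ XX L, ∀ r ∈ R, z r = ξ r := by
  obtain ⟨z, h1, -, h3⟩ := reach H 0 0 0 ξ (fun _ => trivial)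
  exact ⟨z, h1, fun r hr => h3 r (Or.inl hr)⟩

lemma exists_window {R : Set ℤ} {L : ℕ → ℕ} (H : Room R L) {x : ℤ → Bool} (hx : x ∈ XX L)
    (ρ : ℕ) : ∃ (j : ℕ) (o : ℤ), C L j o x ∧ o ≤ -ρ ∧ (ρ : ℤ) < o + 2 * len L j := by
  obtain ⟨o, ho⟩ := mem_iInter.1 hx (2 * ρ)
  obtain ⟨a, h1, h2⟩ := exists_slot (H.len_pos (2 * ρ)) o (-ρ)
  have := H.lt_len (2 * ρ)
  exact ⟨2 * ρ, o + a * len L (2 * ρ), C_shift ho a, h1, by omega⟩

/-- The extension property. -/
lemma extend {R : Set ℤ} {L : ℕ → ℕ} (H : Room R L) {x : ℤ → Bool} (hx : x ∈ XX L) (ρ : ℕ) :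
    ∃ ρ' : ℕ, ∀ (t : ℤ) (ξ : ℤ → Bool), (∀ a : ℤ, |a| ≤ ρ' → ξ a = x a) →
      ∃ y ∈ XX L, (∀ a : ℤ, |a| ≤ ρ → y a = x a) ∧ ∀ r, (r ∈ R ∨ r = t) → y r = ξ r := by
  classical
  obtain ⟨j, o, hC, h1, h2⟩ := exists_window H hx ρ
  refine ⟨o.natAbs + 2 * len L j, fun t ξ hξ => ?_⟩
  obtain ⟨z, hz1, -, hz3, -⟩ := climb H 0 o t ξ (fun _ => trivial) j
  rw [zero_add] at hz1
  have hl := H.len_pos j
  have hl' : (0 : ℤ) < len L j := by exact_mod_cast hl
  let w : ℤ → Bool := fun r => if o ≤ r ∧ r < o + 2 * len L j then x r else z r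
  have hw : C L j o w := by
    intro m
    by_cases hm : m = 0 ∨ m = 1
    · refine V_loc' L (fun r a b => ?_) (hC m)
      have : o ≤ r ∧ r < o + 2 * len L j := by
        rcases hm with rfl | rfl <;> constructor <;> omega
      simp only [w, if_pos this]
    · refine V_loc' L (fun r a b => ?_) (hz1 m)
      have : ¬ (o ≤ r ∧ r < o + 2 * len L j) := by
        rintro ⟨c, d⟩
        have : m ≤ -1 ∨ 2 ≤ m := by omega
        rcases this with e | e <;> nlinarith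
      simp only [w, if_neg this]
  obtain ⟨y, hy1, hy2, hy3⟩ := reach H j o t w hw
  refine ⟨y, hy1, fun a ha => ?_, fun r hr => ?_⟩
  · have hab := abs_le.1 ha
    have : o ≤ a ∧ a < o + 2 * len L j := ⟨by omega, by omega⟩
    rw [hy2 a this.1 this.2]
    simp only [w, if_pos this]
  · rw [hy3 r hr]
    by_cases hc : o ≤ r ∧ r < o + 2 * len L j
    · simp only [w, if_pos hc]
      refine (hξ r ?_).symm
      rw [abs_le]
      constructor <;> omega
    · simp only [w, if_neg hc]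
      exact hz3 r hr

/-- Every window of a point of the subshift occurs in every point of the subshift. -/
lemma occurs {R : Set ℤ} {L : ℕ → ℕ} (H : Room R L) {x x' : ℤ → Bool} (hx : x ∈ XX L)
    (hx' : x' ∈ XX L) (ρ : ℕ) : ∃ n : ℤ, ∀ a : ℤ, |a| ≤ ρ → x (a + n) = x' a := by
  obtain ⟨j, o, hC, h1, h2⟩ := exists_window H hx' ρ
  obtain ⟨z, hz1, hz2, -⟩ := step H j o 0 x' hC
  have hy : V L (j + 1) 0 (fun r => z (o + r)) :=
    V_loc L (j + 1) (o + 0 * len L (j + 1)) 0 z _ (fun u _ _ => by simp) (hz1 0)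
  obtain ⟨o', ho'⟩ := mem_iInter.1 hx (j + 2)
  obtain ⟨i, -, hi⟩ := (ho' 0).2 _ hy
  refine ⟨o' + i * len L (j + 1) - o, fun a ha => ?_⟩
  have hab := abs_le.1 ha
  have hs := H.len_succ j
  have := hi (a - o) (by omega) (by omega)
  rw [← hz2 a (by omega) (by omega)]
  convert this using 2 <;> ring

lemma shift_mem {L : ℕ → ℕ} {x : ℤ → Bool} (hx : x ∈ XX L) (n : ℤ) :
    (fun a => x (a + n)) ∈ XX L := by
  refine mem_iInter.2 fun j => ?_
  obtain ⟨o, ho⟩ := mem_iInter.1 hx j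
  refine ⟨o - n, fun m => V_loc L j _ _ x _ (fun u _ _ => ?_) (ho m)⟩
  congr 1
  ring

end Pool.Agent.P.MP_c19a8f_an
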