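import Mathlib
import Pool.Agent.P.MP_c19a8f_an.Blocks

/-!
Sets of integers with long gaps occurring with bounded spacing, and values of polynomials of
degree at least two.
-/

namespace Pool.Agent.P.MP_c19a8f_an

open Set Filter Topology Polynomial

/-- Gaps of every length occur with bounded spacing. -/
def Gap (R : Set ℤ) : Prop :=
  ∀ M : ℕ, ∃ N : ℕ, ∀ s : ℤ, ∃ u : ℤ, s ≤ u ∧ u ≤ s + N ∧ ∀ r ∈ R, ¬ (u ≤ r ∧ r < u + M)

lemma Gap.union {A B : Set ℤ} (hA : Gap A) (hB : Gap B) : Gap (A ∪ B) := by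
  intro M
  obtain ⟨N2, h2⟩ := hB M
  obtain ⟨N1, h1⟩ := hA (N2 + M)
  refine ⟨N1 + N2, fun s => ?_⟩
  obtain ⟨u1, a1, a2, a3⟩ := h1 s
  obtain ⟨u2, b1, b2, b3⟩ := h2 u1
  refine ⟨u2, by omega, by omega, ?_⟩
  rintro r (hr | hr)
  · have := a3 r hr
    omega
  · exact b3 r hr

lemma gap_singleton (t : ℤ) : Gap {t} := by
  intro M
  refine ⟨M, fun s => ?_⟩
  by_cases h : s ≤ t ∧ t < s + M
  · exact ⟨s + M, by omega, by omega, fun r hr => by rw [mem_singleton_iff.1 hr]; omega⟩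
  · exact ⟨s, by omega, by omega, fun r hr => by rw [mem_singleton_iff.1 hr]; exact h⟩

lemma gap_finite {A : Set ℤ} (hA : A.Finite) : Gap A := by
  induction A, hA using Set.Finite.induction_on with
  | empty => exact fun M => ⟨0, fun s => ⟨s, le_rfl, by omega, fun r hr => hr.elim⟩⟩
  | insert _ _ ih => exact (gap_singleton _).union ih

/-- The terms of the sequence are eventually far apart. -/
def Sep (f : ℕ → ℤ) : Prop := ∀ G : ℕ, ∃ N : ℕ, ∀ m n : ℕ, N ≤ m → m < n → (G : ℤ) ≤ |f n - f m|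

lemma Sep.gap {f : ℕ → ℤ} (hf : Sep f) : Gap (range f) := by
  intro M
  obtain ⟨N0, h0⟩ := hf (2 * M)
  obtain ⟨N1, h1⟩ := gap_finite ((Set.finite_lt_nat N0).image f) (2 * M)
  refine ⟨N1 + M, fun s => ?_⟩
  obtain ⟨u, a1, a2, a3⟩ := h1 s
  have hbig : ∀ n, u ≤ f n → f n < u + 2 * M → N0 ≤ n := by
    intro n b1 b2
    by_contra hn
    exact a3 (f n) ⟨n, not_le.1 hn, rfl⟩ ⟨b1, by omega⟩
  by_cases h : ∃ n, u ≤ f n ∧ f n < u + M
  · obtain ⟨n, b1, b2⟩ := h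
    refine ⟨u + M, by omega, by omega, ?_⟩
    rintro _ ⟨m, rfl⟩ ⟨c1, c2⟩
    have hn := hbig n b1 (by omega)
    have hm := hbig m (by omega) (by omega)
    rcases lt_trichotomy m n with e | e | e
    · have := h0 m n hm e
      rw [le_abs] at this
      omega
    · subst e; omega
    · have := h0 n m hn e
      rw [le_abs] at this
      omega
  · refine ⟨u, a1, by omega, ?_⟩
    rintro _ ⟨m, rfl⟩ hm
    exact h ⟨m, hm⟩

lemma Gap.room {R : Set ℤ} (hR : Gap R) : ∃ L, Room R L := by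
  choose N hN using hR
  refine ⟨fun l => 2 * l + N (2 * ((2 ^ l + 1) * l)) + (2 ^ l + 1) * l + 1 + 2 ^ l,
    fun l hl s t => ?_⟩
  obtain ⟨u, a1, a2, a3⟩ := hN (2 * ((2 ^ l + 1) * l)) (s + 2 * l)
  obtain ⟨M, hM⟩ : ∃ M, M = (2 ^ l + 1) * l := ⟨_, rfl⟩
  have hM' : (M : ℤ) = 2 ^ l * l + l := by rw [hM]; push_cast; ring
  rw [← hM] at a2 a3
  simp only [← hM]
  obtain ⟨v, b1, b2, b3⟩ : ∃ v : ℤ, u ≤ v ∧ v ≤ u + M ∧ ¬ (v ≤ t ∧ t < v + M) := by
    by_cases h : u ≤ t ∧ t < u + M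
    · exact ⟨u + M, by omega, by omega, by omega⟩
    · exact ⟨u, by omega, by omega, h⟩
  obtain ⟨m, c1, c2⟩ := exists_slot hl s v
  have hl' : (1 : ℤ) ≤ l := by exact_mod_cast hl
  have hm1 : 1 < m := by nlinarith
  have hm2 : m ≤ 2 * l + N (2 * M) + M := by nlinarith
  have e : (((m + 1).toNat : ℕ) : ℤ) = m + 1 := Int.toNat_of_nonneg (by omega)
  refine ⟨(m + 1).toNat, by omega, by omega, ?_⟩
  rw [e]
  have d1 : s + (m + 1) * l = s + m * l + l := by ring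
  have d2 : s + (m + 1 + 2 ^ l) * l = s + m * l + M := by rw [hM']; ring
  rw [d1, d2]
  rintro r (hr | rfl) ⟨e1, e2⟩
  · exact a3 r hr ⟨by omega, by omega⟩
  · exact b3 ⟨by omega, by omega⟩

lemma sep_poly (p : ℤ[X]) (hp : 2 ≤ p.natDegree) : Sep fun n : ℕ => p.eval (n : ℤ) := by
  intro G
  let P : ℝ[X] := p.map (Int.castRingHom ℝ)
  have hP : P.natDegree = p.natDegree := natDegree_map_eq_of_injective Int.cast_injective p
  have hd : 0 < (derivative P).degree := by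
    rw [← natDegree_pos_iff_degree_pos, natDegree_derivative]
    omega
  obtain ⟨x0, hx0⟩ := eventually_atTop.1
    ((abs_tendsto_atTop _ hd).eventually (eventually_ge_atTop (G : ℝ)))
  obtain ⟨N, hN⟩ := exists_nat_ge x0
  refine ⟨N, fun m n hm hmn => ?_⟩
  have hlt : (m : ℝ) < n := by exact_mod_cast hmn
  have hle : (m : ℝ) + 1 ≤ n := by exact_mod_cast hmn
  have hNm : (N : ℝ) ≤ m := by exact_mod_cast hm
  obtain ⟨c, hc, hc'⟩ := exists_hasDerivAt_eq_slope (fun x => P.eval x)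
    (fun x => (derivative P).eval x) hlt P.continuous.continuousOn
    (fun x _ => P.hasDerivAt x)
  have h1 := hx0 c (by linarith [hc.1])
  rw [hc', abs_div, abs_of_pos (sub_pos.2 hlt), le_div_iff₀ (sub_pos.2 hlt)] at h1
  have hev : ∀ k : ℕ, P.eval (k : ℝ) = ((p.eval (k : ℤ) : ℤ) : ℝ) := by
    intro k
    have : (k : ℝ) = Int.castRingHom ℝ (k : ℤ) := by simp
    rw [this, eval_map, eval₂_at_apply]
    simp
  rw [hev, hev] at h1
  have hG : (0 : ℝ) ≤ G := Nat.cast_nonneg _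
  have h2 : (G : ℝ) ≤ |((p.eval (n : ℤ) : ℤ) : ℝ) - ((p.eval (m : ℤ) : ℤ) : ℝ)| := by nlinarith
  exact_mod_cast h2

lemma sep_poly_neg (p : ℤ[X]) (hp : 2 ≤ p.natDegree) :
    Sep fun n : ℕ => p.eval (-(n : ℤ)) + 1 := by
  intro G
  have h : 2 ≤ (p.comp (-X)).natDegree := by
    rw [natDegree_comp]; simpa using hp
  obtain ⟨N, hN⟩ := sep_poly _ h G
  refine ⟨N, fun m n a b => ?_⟩
  simpa [eval_comp] using hN m n a b

lemma Sep.far {f : ℕ → ℤ} (hf : Sep f) (c : ℤ) : ∃ N : ℕ, ∀ n, N ≤ n → f n ≠ c := by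
  obtain ⟨N, hN⟩ := hf 1
  by_cases h : ∃ m, N ≤ m ∧ f m = c
  · obtain ⟨m, h1, h2⟩ := h
    refine ⟨m + 1, fun n hn hc => ?_⟩
    have := hN m n h1 hn
    rw [hc, h2] at this
    simp at this
  · exact ⟨N, fun n hn hc => h ⟨n, hn, hc⟩⟩

/-- The coordinates used for the polynomial `p`. -/
def pos (p : ℤ[X]) (n0 : ℕ) : Bool ⊕ (ℕ × Bool) → ℤ
  | Sum.inl false => 0
  | Sum.inl true => 1
  | Sum.inr (n, false) => p.eval ((n0 + n : ℕ) : ℤ)
  | Sum.inr (n, true) => p.eval (-((n0 + n : ℕ) : ℤ)) + 1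

lemma pos_injective (p : ℤ[X]) (hp : 2 ≤ p.natDegree) :
    ∃ N : ℕ, ∀ n0, N ≤ n0 → Function.Injective (pos p n0) := by
  have s1 := sep_poly p hp
  have s2 := sep_poly_neg p hp
  obtain ⟨N1, h1⟩ := s1 1
  obtain ⟨N2, h2⟩ := s2 1
  obtain ⟨N3, h3⟩ := s1.far 0
  obtain ⟨N4, h4⟩ := s1.far 1
  obtain ⟨N5, h5⟩ := s2.far 0
  obtain ⟨N6, h6⟩ := s2.far 1
  refine ⟨N1 + N2 + N3 + N4 + N5 + N6 + 1, fun n0 h0 => ?_⟩
  have cross : ∀ a b : ℕ, p.eval ((n0 + a : ℕ) : ℤ) ≠ p.eval (-((n0 + b : ℕ) : ℤ)) + 1 := by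
    intro a b h
    have := sub_dvd_eval_sub ((n0 + a : ℕ) : ℤ) (-((n0 + b : ℕ) : ℤ)) p
    rw [h, add_sub_cancel_left] at this
    have := Int.le_of_dvd one_pos this
    omega
  have inj : ∀ (f : ℕ → ℤ) (N : ℕ), N ≤ n0 →
      (∀ m n : ℕ, N ≤ m → m < n → ((1 : ℕ) : ℤ) ≤ |f n - f m|) →
      ∀ a b, f (n0 + a) = f (n0 + b) → a = b := by
    intro f N hN h a b hab
    rcases lt_trichotomy a b with e | e | e
    · have := h (n0 + a) (n0 + b) (by omega) (by omega)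
      rw [hab] at this; simp at this
    · exact e
    · have := h (n0 + b) (n0 + a) (by omega) (by omega)
      rw [hab] at this; simp at this
  rintro ((_ | _) | ⟨a, (_ | _)⟩) ((_ | _) | ⟨b, (_ | _)⟩) h <;> simp only [pos] at h
  · rfl
  · omega
  · exact absurd h.symm (h3 _ (by omega))
  · exact absurd h.symm (h5 _ (by omega))
  · omega
  · rfl
  · exact absurd h.symm (h4 _ (by omega))
  · exact absurd h.symm (h6 _ (by omega))
  · exact absurd h (h3 _ (by omega))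
  · exact absurd h (h4 _ (by omega))
  · rw [inj _ N1 (by omega) h1 a b h]
  · exact absurd h (cross a b)
  · exact absurd h (h5 _ (by omega))
  · exact absurd h (h6 _ (by omega))
  · exact absurd h.symm (cross b a)
  · rw [inj _ N2 (by omega) h2 a b h]

/-- A thin set containing all the coordinates used for `p`. -/
def posSet (p : ℤ[X]) : Set ℤ :=
  ({0} ∪ {1}) ∪ ((range fun n : ℕ => p.eval (n : ℤ)) ∪ range fun n : ℕ => p.eval (-(n : ℤ)) + 1)

lemma gap_posSet (p : ℤ[X]) (hp : 2 ≤ p.natDegree) : Gap (posSet p) :=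
  ((gap_singleton 0).union (gap_singleton 1)).union
    ((sep_poly p hp).gap.union (sep_poly_neg p hp).gap)

lemma pos_mem (p : ℤ[X]) (n0 : ℕ) (k : Bool ⊕ (ℕ × Bool)) : pos p n0 k ∈ posSet p := by
  rcases k with (_ | _) | ⟨a, (_ | _)⟩
  · exact Or.inl (Or.inl rfl)
  · exact Or.inl (Or.inr rfl)
  · exact Or.inr (Or.inl ⟨_, rfl⟩)
  · exact Or.inr (Or.inr ⟨_, rfl⟩)

end Pool.Agent.P.MP_c19a8f_an
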