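import Mathlib

/-!
An open projection of a closed set of `ℤ → Bool` onto a full set of patterns, with perfect fibres,
is a trivial Cantor bundle.
-/

namespace Pool.Agent.P.MP_c19a8f_an

open Set Filter Topology

lemma nth_congr {p q : ℕ → Prop} (hp : (Set.ofPred p).Infinite) (m : ℕ)
    (h : ∀ k, k ≤ Nat.nth p m → (q k ↔ p k)) : Nat.nth q m = Nat.nth p m := by
  classical
  have h1 : q (Nat.nth p m) := (h _ le_rfl).2 (Nat.nth_mem_of_infinite hp m)
  have h2 : Nat.count q (Nat.nth p m) = m := by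
    have : Nat.count q (Nat.nth p m) = Nat.count p (Nat.nth p m) := by
      rw [Nat.count_eq_card_filter_range, Nat.count_eq_card_filter_range]
      congr 1
      exact Finset.filter_congr fun k hk => h k (Finset.mem_range.1 hk).le
    rw [this, Nat.count_nth_of_infinite hp]
  have := Nat.nth_count h1
  rwa [h2] at this

section

variable {K : Type} (X : Set (ℤ → Bool)) (ι : K → ℤ) (e : ℕ → ℤ)

/-- Branching at the `i`-th coordinate inside the fibre of `x`. -/
def Br (x : ℤ → Bool) (i : ℕ) : Prop :=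
  ∀ b : Bool, ∃ y ∈ X, (∀ k, y (ι k) = x (ι k)) ∧ (∀ a, a < i → y (e a) = x (e a)) ∧ y (e i) = b

variable {X ι e}

lemma Br_congr {x x' : ℤ → Bool} {i : ℕ} (h1 : ∀ k, x' (ι k) = x (ι k))
    (h2 : ∀ a, a < i → x' (e a) = x (e a)) : Br X ι e x' i ↔ Br X ι e x i := by
  constructor
  · intro h b
    obtain ⟨y, hy, a1, a2, a3⟩ := h b
    exact ⟨y, hy, fun k => (a1 k).trans (h1 k), fun a ha => (a2 a ha).trans (h2 a ha), a3⟩
  · intro h b
    obtain ⟨y, hy, a1, a2, a3⟩ := h b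
    exact ⟨y, hy, fun k => (a1 k).trans (h1 k).symm,
      fun a ha => (a2 a ha).trans (h2 a ha).symm, a3⟩

lemma Br_of_ne {x y : ℤ → Bool} (hx : x ∈ X) (hy : y ∈ X) {i : ℕ}
    (h1 : ∀ k, y (ι k) = x (ι k)) (h2 : ∀ a, a < i → y (e a) = x (e a))
    (h3 : y (e i) ≠ x (e i)) : Br X ι e x i := by
  intro b
  by_cases hb : x (e i) = b
  · exact ⟨x, hx, fun _ => rfl, fun _ _ => rfl, hb⟩
  · refine ⟨y, hy, h1, h2, ?_⟩
    revert h3 hb
    cases y (e i) <;> cases x (e i) <;> cases b <;> simp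

lemma exists_radius (e : ℕ → ℤ) (i : ℕ) : ∃ ρ : ℕ, ∀ a, a ≤ i → |e a| ≤ ρ := by
  refine ⟨(Finset.range (i + 1)).sup fun a => (e a).natAbs, fun a ha => ?_⟩
  have : (e a).natAbs ≤ (Finset.range (i + 1)).sup fun a => (e a).natAbs :=
    Finset.le_sup (f := fun a => (e a).natAbs) (Finset.mem_range.2 (by omega))
  rw [Int.abs_eq_natAbs]
  exact_mod_cast this

lemma exists_first_ne (he : Function.Surjective e) {x y : ℤ → Bool} (h : y ≠ x) :
    ∃ i, (∀ a, a < i → y (e a) = x (e a)) ∧ y (e i) ≠ x (e i) := by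
  classical
  have : ∃ i, y (e i) ≠ x (e i) := by
    obtain ⟨r, hr⟩ := Function.ne_iff.1 h
    obtain ⟨i, rfl⟩ := he r
    exact ⟨i, hr⟩
  exact ⟨Nat.find this, fun a ha => not_not.1 (Nat.find_min this ha), Nat.find_spec this⟩

lemma Br_infinite (he : Function.Surjective e)
    (hperf : ∀ x ∈ X, ∀ ρ : ℕ, ∃ y ∈ X, y ≠ x ∧ (∀ a : ℤ, |a| ≤ ρ → y a = x a) ∧
      ∀ k, y (ι k) = x (ι k)) {x : ℤ → Bool} (hx : x ∈ X) :
    (Set.ofPred (Br X ι e x)).Infinite := by
  refine Set.infinite_of_forall_exists_gt fun i0 => ?_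
  obtain ⟨ρ, hρ⟩ := exists_radius e i0
  obtain ⟨y, hy, hne, h1, h2⟩ := hperf x hx ρ
  obtain ⟨i, hi1, hi2⟩ := exists_first_ne he hne
  refine ⟨i, Br_of_ne hx hy h2 hi1 hi2, ?_⟩
  by_contra hle
  exact hi2 (h1 _ (hρ i (not_lt.1 hle)))

lemma isOpen_ball (ρ : ℕ) (x : ℤ → Bool) :
    IsOpen {y : ℤ → Bool | ∀ a : ℤ, |a| ≤ ρ → y a = x a} := by
  have : {y : ℤ → Bool | ∀ a : ℤ, |a| ≤ ρ → y a = x a} =
      ⋂ r ∈ Finset.Icc (-(ρ : ℤ)) ρ, (fun y : ℤ → Bool => y r) ⁻¹' {x r} := by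
    ext y; simp [abs_le]
  rw [this]
  exact isOpen_biInter_finset fun r _ => (isOpen_discrete _).preimage (continuous_apply r)

lemma isOpen_Br
    (hopen : ∀ x ∈ X, ∀ ρ : ℕ, ∃ ρ' : ℕ, ∀ ξ : ℤ → Bool, (∀ a : ℤ, |a| ≤ ρ' → ξ a = x a) →
      ∃ y ∈ X, (∀ a : ℤ, |a| ≤ ρ → y a = x a) ∧ ∀ k, y (ι k) = ξ (ι k)) (i : ℕ) :
    IsOpen {x : ℤ → Bool | Br X ι e x i} := by
  classical
  rw [isOpen_iff_mem_nhds]
  intro x hx
  obtain ⟨ρ, hρ⟩ := exists_radius e i
  have key : ∀ b : Bool, ∀ᶠ x' in 𝓝 x, ∃ y ∈ X, (∀ k, y (ι k) = x' (ι k)) ∧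
      (∀ a, a < i → y (e a) = x' (e a)) ∧ y (e i) = b := by
    intro b
    obtain ⟨y, hy, a1, a2, a3⟩ := hx b
    obtain ⟨ρ', hρ'⟩ := hopen y hy ρ
    filter_upwards [(isOpen_ball ρ x).mem_nhds (fun _ _ => rfl),
      (isOpen_ball ρ' x).mem_nhds (fun _ _ => rfl)] with x' hx1 hx2
    obtain ⟨y', hy', b1, b2⟩ := hρ' (fun a => if a ∈ range ι then x' a else y a) (by
      intro a ha
      split_ifs with hc
      · obtain ⟨k, rfl⟩ := hc
        rw [hx2 _ ha, a1]
      · rfl)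
    refine ⟨y', hy', fun k => ?_, fun a ha => ?_, ?_⟩
    · rw [b2 k]; simp
    · rw [b1 _ (hρ a ha.le), a2 a ha, hx1 _ (hρ a ha.le)]
    · rw [b1 _ (hρ i le_rfl), a3]
  filter_upwards [key true, key false] with x' h1 h2
  intro b
  cases b
  · exact h2
  · exact h1

lemma isClosed_eq_apply (r : ℤ) :
    IsClosed {z : (ℤ → Bool) × (ℤ → Bool) | z.2 r = z.1 r} :=
  isClosed_eq ((continuous_apply r).comp continuous_snd) ((continuous_apply r).comp continuous_fst)

lemma isClosed_Br (hX : IsClosed X) (i : ℕ) : IsClosed {x : ℤ → Bool | Br X ι e x i} := by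
  have : {x : ℤ → Bool | Br X ι e x i} = ⋂ b : Bool, Prod.fst ''
      (((Prod.snd ⁻¹' X) ∩ ⋂ k, {z : (ℤ → Bool) × (ℤ → Bool) | z.2 (ι k) = z.1 (ι k)}) ∩
        ((⋂ a : ℕ, ⋂ _ : a < i, {z : (ℤ → Bool) × (ℤ → Bool) | z.2 (e a) = z.1 (e a)}) ∩
          {z : (ℤ → Bool) × (ℤ → Bool) | z.2 (e i) = b})) := by
    ext x
    simp only [Br, mem_ofPred_eq, mem_iInter, mem_image, mem_inter_iff, mem_preimage,
      Prod.exists, exists_and_right, exists_eq_right]
    constructor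
    · intro h b
      obtain ⟨y, h0, h1, h2, h3⟩ := h b
      exact ⟨y, ⟨h0, h1⟩, h2, h3⟩
    · intro h b
      obtain ⟨y, ⟨h0, h1⟩, h2, h3⟩ := h b
      exact ⟨y, h0, h1, h2, h3⟩
  rw [this]
  refine isClosed_iInter fun b => (IsCompact.image (IsClosed.isCompact ?_) continuous_fst).isClosed
  refine ((hX.preimage continuous_snd).inter (isClosed_iInter fun k => isClosed_eq_apply _)).inter
    ((isClosed_iInter fun a => isClosed_iInter fun _ => isClosed_eq_apply _).inter ?_)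
  exact isClosed_eq ((continuous_apply _).comp continuous_snd) continuous_const

end

theorem exists_trivialization {K : Type} {X : Set (ℤ → Bool)} (ι : K → ℤ) (hX : IsClosed X)
    (hsurj : ∀ ξ : K → Bool, ∃ x ∈ X, ∀ k, x (ι k) = ξ k)
    (hopen : ∀ x ∈ X, ∀ ρ : ℕ, ∃ ρ' : ℕ, ∀ ξ : ℤ → Bool, (∀ a : ℤ, |a| ≤ ρ' → ξ a = x a) →
      ∃ y ∈ X, (∀ a : ℤ, |a| ≤ ρ → y a = x a) ∧ ∀ k, y (ι k) = ξ (ι k))
    (hperf : ∀ x ∈ X, ∀ ρ : ℕ, ∃ y ∈ X, y ≠ x ∧ (∀ a : ℤ, |a| ≤ ρ → y a = x a) ∧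
      ∀ k, y (ι k) = x (ι k)) :
    ∃ Φ : X ≃ₜ (K → Bool) × (ℕ → Bool), ∀ (x : X) (k : K), (Φ x).1 k = x.1 (ι k) := by
  classical
  obtain ⟨e, he⟩ : ∃ e : ℕ → ℤ, Function.Surjective e := exists_surjective_nat ℤ
  have : CompactSpace X := isCompact_iff_compactSpace.1 hX.isCompact
  have hinf : ∀ x : X, (Set.ofPred (Br X ι e x.1)).Infinite := fun x => Br_infinite he hperf x.2
  let φ : X → (K → Bool) × (ℕ → Bool) :=
    fun x => (fun k => x.1 (ι k), fun m => x.1 (e (Nat.nth (Br X ι e x.1) m)))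
  have hcont : Continuous φ := by
    refine Continuous.prodMk (continuous_pi fun k => (continuous_apply _).comp continuous_subtype_val)
      (continuous_pi fun m => ?_)
    rw [continuous_iff_continuousAt]
    intro x
    have h1 : ∀ k : ℕ, ∀ᶠ x' in 𝓝 x.1, (Br X ι e x' k ↔ Br X ι e x.1 k) := by
      intro k
      by_cases hk : Br X ι e x.1 k
      · filter_upwards [(isOpen_Br (e := e) hopen k).mem_nhds hk] with x' hx'
        exact iff_of_true hx' hk
      · filter_upwards [(isClosed_Br (ι := ι) (e := e) hX k).isOpen_compl.mem_nhds hk] with x' hx'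
        exact iff_of_false hx' hk
    have h2 : ∀ᶠ x' in 𝓝 x.1, ∀ k ∈ Finset.range (Nat.nth (Br X ι e x.1) m + 1),
        (Br X ι e x' k ↔ Br X ι e x.1 k) := (eventually_all_finset _).2 fun k _ => h1 k
    have h3 : ∀ᶠ x' in 𝓝 x.1, x' (e (Nat.nth (Br X ι e x.1) m)) =
        x.1 (e (Nat.nth (Br X ι e x.1) m)) := by
      obtain ⟨ρ, hρ⟩ := exists_radius e (Nat.nth (Br X ι e x.1) m)
      filter_upwards [(isOpen_ball ρ x.1).mem_nhds (fun _ _ => rfl)] with x' hx'
      exact hx' _ (hρ _ le_rfl)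
    have h4 : ∀ᶠ x' in 𝓝 x.1, x' (e (Nat.nth (Br X ι e x') m)) =
        x.1 (e (Nat.nth (Br X ι e x.1) m)) := by
      filter_upwards [h2, h3] with x' a b
      rw [nth_congr (hinf x) m fun k hk => a k (Finset.mem_range.2 (by omega)), b]
    have h5 := continuous_subtype_val.continuousAt (x := x) |>.eventually h4
    exact tendsto_const_nhds.congr' (h5.mono fun x' hx' => hx'.symm)
  have hinj : Function.Injective φ := by
    intro x y hxy
    by_contra hne
    have hne' : y.1 ≠ x.1 := fun h => hne (Subtype.ext h.symm)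
    obtain ⟨i, hi1, hi2⟩ := exists_first_ne he hne'
    have hπ : ∀ k, y.1 (ι k) = x.1 (ι k) := fun k => (congrFun (congrArg Prod.fst hxy) k).symm
    have hb : Br X ι e x.1 i := Br_of_ne x.2 y.2 hπ hi1 hi2
    have e1 : Nat.nth (Br X ι e x.1) (Nat.count (Br X ι e x.1) i) = i := Nat.nth_count hb
    have e2 : Nat.nth (Br X ι e y.1) (Nat.count (Br X ι e x.1) i) = i := by
      rw [nth_congr (hinf x) _ fun k hk => Br_congr hπ fun a ha => hi1 a (by omega), e1]
    have := congrFun (congrArg Prod.snd hxy) (Nat.count (Br X ι e x.1) i)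
    simp only [φ, e1, e2] at this
    exact hi2 this.symm
  have hsur : Function.Surjective φ := by
    rintro ⟨ξ, c⟩
    have h1 : ∀ m : ℕ, ∃ x : X, (φ x).1 = ξ ∧ ∀ k, k < m → (φ x).2 k = c k := by
      intro m
      induction m with
      | zero =>
        obtain ⟨x, hx, h⟩ := hsurj ξ
        exact ⟨⟨x, hx⟩, funext h, fun k hk => absurd hk (Nat.not_lt_zero k)⟩
      | succ m ih =>
        obtain ⟨x, hx1, hx2⟩ := ih
        obtain ⟨y, hy, a1, a2, a3⟩ := Nat.nth_mem_of_infinite (hinf x) m (c m)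
        have hn : ∀ k, k ≤ m → Nat.nth (Br X ι e y) k = Nat.nth (Br X ι e x.1) k := by
          intro k hk
          have hle := (Nat.nth_strictMono (hinf x)).monotone hk
          exact nth_congr (hinf x) k fun a ha => Br_congr a1 fun b hb => a2 b (by omega)
        refine ⟨⟨y, hy⟩, ?_, fun k hk => ?_⟩
        · rw [← hx1]; exact funext a1
        · show y (e (Nat.nth (Br X ι e y) k)) = c k
          rw [hn k (by omega)]
          rcases Nat.lt_succ_iff_lt_or_eq.1 hk with h | rfl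
          · rw [a2 _ (Nat.nth_strictMono (hinf x) h)]
            exact hx2 k h
          · exact a3
    choose x hx1 hx2 using h1
    have hcl : IsClosed (range φ) := (isCompact_range hcont).isClosed
    show (ξ, c) ∈ range φ
    refine IsClosed.mem_of_tendsto (f := fun m => φ (x m)) (b := atTop) hcl ?_
      (Eventually.of_forall fun m => mem_range_self _)
    refine (Prod.tendsto_iff _ _).2 ⟨?_, tendsto_pi_nhds.2 fun k => ?_⟩
    · simp only [hx1]; exact tendsto_const_nhds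
    · refine tendsto_const_nhds.congr' ?_
      filter_upwards [eventually_gt_atTop k] with m hm
      exact (hx2 m k hm).symm
  exact ⟨Continuous.homeoOfEquivCompactToT2 (f := Equiv.ofBijective φ ⟨hinj, hsur⟩) hcont,
    fun _ _ => rfl⟩

end Pool.Agent.P.MP_c19a8f_an
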