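import Mathlib
import Pool.Agent.P.MP_c19a8f_an.Thin
import Pool.Agent.P.MP_c19a8f_an.Triv

/-!
Assembling the two minimal homeomorphisms.
-/

namespace Pool.Agent.P.MP_c19a8f_an

open Set Filter Topology Polynomial

lemma triv_XX {R : Set ℤ} {L : ℕ → ℕ} (H : Room R L) (hR : Gap R) {K : Type} (ι : K → ℤ)
    (hι : Function.Injective ι) (hm : ∀ k, ι k ∈ R) :
    ∃ Φ : XX L ≃ₜ (K → Bool) × (ℕ → Bool), ∀ (x : XX L) (k : K), (Φ x).1 k = x.1 (ι k) := by
  classical
  refine exists_trivialization ι (isClosed_XX H) (fun ξ => ?_) (fun x hx ρ => ?_)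
    (fun x hx ρ => ?_)
  · obtain ⟨z, hz, h⟩ := exists_pattern H (Function.extend ι ξ fun _ => false)
    exact ⟨z, hz, fun k => by rw [h _ (hm k), hι.extend_apply]⟩
  · obtain ⟨ρ', h⟩ := extend H hx ρ
    refine ⟨ρ', fun ξ hξ => ?_⟩
    obtain ⟨y, hy, h1, h2⟩ := h 0 ξ hξ
    exact ⟨y, hy, h1, fun k => h2 _ (Or.inl (hm k))⟩
  · obtain ⟨ρ', h⟩ := extend H hx ρ
    obtain ⟨N, hN⟩ := hR 1
    obtain ⟨t, ht1, -, ht3⟩ := hN (ρ' + 1)
    have htR : t ∉ R := fun h => ht3 t h ⟨le_rfl, by omega⟩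
    obtain ⟨y, hy, h1, h2⟩ := h t (Function.update x t (!x t)) (by
      intro a ha
      have := (abs_le.1 ha).2
      exact Function.update_of_ne (by omega) _ _)
    refine ⟨y, hy, fun hyx => ?_, h1, fun k => ?_⟩
    · have := h2 t (Or.inr rfl)
      rw [hyx, Function.update_self] at this
      revert this
      cases x t <;> simp
    · rw [h2 _ (Or.inl (hm k))]
      have hne : ι k ≠ t := fun e => htR (e ▸ hm k)
      exact Function.update_of_ne hne _ _

/-- The shift by `n` as a map. -/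
def shiftF (L : ℕ → ℕ) (n : ℤ) (x : XX L) : XX L := ⟨fun a => x.1 (a + n), shift_mem x.2 n⟩

lemma continuous_shiftF (L : ℕ → ℕ) (n : ℤ) : Continuous (shiftF L n) := by
  refine Continuous.subtype_mk (continuous_pi fun a => ?_) _
  exact (continuous_apply (a + n)).comp continuous_subtype_val

/-- The shift by `n` on the subshift. -/
def shiftH (L : ℕ → ℕ) (n : ℤ) : XX L ≃ₜ XX L where
  toFun := shiftF L n
  invFun := shiftF L (-n)
  left_inv x := by ext a; simp [shiftF]
  right_inv x := by ext a; simp [shiftF]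
  continuous_toFun := continuous_shiftF L n
  continuous_invFun := continuous_shiftF L (-n)

lemma shiftH_zpow (L : ℕ → ℕ) (n : ℤ) : shiftH L 1 ^ n = shiftH L n := by
  induction n using Int.induction_on with
  | zero =>
    ext x a
    show x.1 a = x.1 (a + 0)
    rw [add_zero]
  | succ n ih =>
    rw [zpow_add_one, ih]
    ext x a
    show x.1 (a + (n : ℤ) + 1) = x.1 (a + ((n : ℤ) + 1))
    rw [add_assoc]
  | pred n ih =>
    rw [zpow_sub_one, ih]
    ext x a
    show x.1 (a + (-(n : ℤ)) + -1) = x.1 (a + (-(n : ℤ) - 1))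
    rw [add_assoc, ← sub_eq_add_neg]

lemma shiftH_zpow_apply (L : ℕ → ℕ) (n : ℤ) (x : XX L) (a : ℤ) :
    ((shiftH L 1 ^ n) x).1 a = x.1 (a + n) := by
  rw [shiftH_zpow]; rfl

lemma minimal_shift {R : Set ℤ} {L : ℕ → ℕ} (H : Room R L) (x : XX L) :
    Dense (range fun n : ℤ => (shiftH L 1 ^ n) x) := by
  intro y
  choose n hn using fun ρ : ℕ => occurs H x.2 y.2 ρ
  refine mem_closure_of_tendsto (f := fun ρ => (shiftH L 1 ^ n ρ) x) (b := atTop) ?_
    (Eventually.of_forall fun ρ => mem_range_self _)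
  refine tendsto_subtype_rng.2 (tendsto_pi_nhds.2 fun a => tendsto_const_nhds.congr' ?_)
  filter_upwards [eventually_ge_atTop a.natAbs] with ρ hρ
  rw [shiftH_zpow_apply, hn ρ a (by rw [Int.abs_eq_natAbs]; exact_mod_cast hρ)]

/-- Flip the two reference coordinates. -/
def flipH : (Bool ⊕ (ℕ × Bool) → Bool) ≃ₜ (Bool ⊕ (ℕ × Bool) → Bool) where
  toFun ξ := Sum.elim (fun b => !ξ (Sum.inl b)) fun k => ξ (Sum.inr k)
  invFun ξ := Sum.elim (fun b => !ξ (Sum.inl b)) fun k => ξ (Sum.inr k)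
  left_inv ξ := by ext (b | k) <;> simp
  right_inv ξ := by ext (b | k) <;> simp
  continuous_toFun := continuous_pi fun k => by
    rcases k with b | k
    · exact (continuous_of_discreteTopology (f := fun b : Bool => !b)).comp (continuous_apply _)
    · exact continuous_apply _
  continuous_invFun := continuous_pi fun k => by
    rcases k with b | k
    · exact (continuous_of_discreteTopology (f := fun b : Bool => !b)).comp (continuous_apply _)
    · exact continuous_apply _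

lemma eventually_coord {L : ℕ → ℕ} {x : XX L} {m : ℕ → ℤ}
    (h : Tendsto (fun i => (shiftH L 1 ^ m i) x) atTop (𝓝 x)) (a : ℤ) :
    ∀ᶠ i in atTop, x.1 (a + m i) = x.1 a := by
  have h1 := tendsto_pi_nhds.1 (tendsto_subtype_rng.1 h) a
  simp only [shiftH_zpow_apply] at h1
  rw [nhds_discrete, tendsto_pure] at h1
  exact h1

theorem main_top (p q : ℤ[X]) (hp : 2 ≤ p.natDegree) (hq : 2 ≤ q.natDegree) :
    ∃ X : Set (ℤ → Bool), IsClosed X ∧ X.Nonempty ∧ ∃ T S : X ≃ₜ X,
      (∀ x : X, Dense (range fun n : ℤ => (T ^ n) x)) ∧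
      (∀ x : X, Dense (range fun n : ℤ => (S ^ n) x)) ∧
      ∀ x : X, ¬ ∃ n : ℕ → ℤ, Tendsto (fun i => |n i|) atTop atTop ∧
        Tendsto (fun i => (T ^ p.eval (n i)) x) atTop (𝓝 x) ∧
        Tendsto (fun i => (S ^ q.eval (n i)) x) atTop (𝓝 x) := by
  have hR : Gap (posSet p ∪ posSet q) := (gap_posSet p hp).union (gap_posSet q hq)
  obtain ⟨L, H⟩ := hR.room
  obtain ⟨N1, h1⟩ := pos_injective p hp
  obtain ⟨N2, h2⟩ := pos_injective q hq
  obtain ⟨Φ, hΦ⟩ := triv_XX H hR (pos p (N1 + N2)) (h1 _ (by omega))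
    fun k => Or.inl (pos_mem p _ k)
  obtain ⟨Ψ, hΨ⟩ := triv_XX H hR (pos q (N1 + N2)) (h2 _ (by omega))
    fun k => Or.inr (pos_mem q _ k)
  let h : XX L ≃ₜ XX L := Φ.trans ((flipH.prodCongr (Homeomorph.refl _)).trans Ψ.symm)
  have hh : ∀ (x : XX L) k, (h x).1 (pos q (N1 + N2) k) =
      flipH (fun k => x.1 (pos p (N1 + N2) k)) k := by
    intro x k
    rw [← hΨ]
    have : (fun k => x.1 (pos p (N1 + N2) k)) = (Φ x).1 := funext fun k => (hΦ x k).symm
    rw [this]
    simp [h]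
  have hS : ∀ (n : ℤ) (x : XX L), ((h⁻¹ * shiftH L 1 * h) ^ n) x =
      h.symm ((shiftH L 1 ^ n) (h x)) := by
    intro n x
    have := conj_zpow (i := n) (a := h⁻¹) (b := shiftH L 1)
    rw [inv_inv] at this
    rw [this]
    rfl
  obtain ⟨z, hz, -⟩ := exists_pattern H fun _ => false
  refine ⟨XX L, isClosed_XX H, ⟨z, hz⟩, shiftH L 1, h⁻¹ * shiftH L 1 * h, minimal_shift H,
    fun x => ?_, fun x => ?_⟩
  · have := h.symm.surjective.denseRange.comp (minimal_shift H (h x)) h.symm.continuous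
    simp only [hS]
    exact this
  · rintro ⟨n, hn, hT, hS'⟩
    have hT' : Tendsto (fun i => (shiftH L 1 ^ q.eval (n i)) (h x)) atTop (𝓝 (h x)) := by
      have := (h.continuous.tendsto x).comp hS'
      simpa only [Function.comp_def, hS, Homeomorph.apply_symm_apply] using this
    obtain ⟨i, a0, a1, b0, b1, c⟩ := ((eventually_coord hT 0).and ((eventually_coord hT 1).and
      ((eventually_coord hT' 0).and ((eventually_coord hT' 1).and
        (hn.eventually (eventually_ge_atTop ((N1 + N2 : ℕ) : ℤ))))))).exists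
    have f0 : (h x).1 0 = !x.1 0 := hh x (Sum.inl false)
    have f1 : (h x).1 1 = !x.1 1 := hh x (Sum.inl true)
    rcases le_abs.1 c with c | c
    · obtain ⟨k, hk⟩ : ∃ k : ℕ, n i = ((N1 + N2 + k : ℕ) : ℤ) :=
        ⟨(n i - (N1 + N2 : ℕ)).toNat, by omega⟩
      have g : (h x).1 (q.eval ((N1 + N2 + k : ℕ) : ℤ)) = x.1 (p.eval ((N1 + N2 + k : ℕ) : ℤ)) :=
        hh x (Sum.inr (k, false))
      rw [zero_add, hk] at a0 b0
      rw [g, a0, f0] at b0
      revert b0
      cases x.1 0 <;> simp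
    · obtain ⟨k, hk⟩ : ∃ k : ℕ, n i = -((N1 + N2 + k : ℕ) : ℤ) :=
        ⟨(-n i - (N1 + N2 : ℕ)).toNat, by omega⟩
      have g : (h x).1 (q.eval (-((N1 + N2 + k : ℕ) : ℤ)) + 1) =
          x.1 (p.eval (-((N1 + N2 + k : ℕ) : ℤ)) + 1) := hh x (Sum.inr (k, true))
      rw [add_comm, hk] at a1 b1
      rw [g, a1, f1] at b1
      revert b1
      cases x.1 1 <;> simp

end Pool.Agent.P.MP_c19a8f_an
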